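import Pool.Agent.Q211.AM.Md3
import Pool.Agent.Q211.AM.P3

/-!
# Finitely supported binary sequences with the tree structure

The countable set `Xs` of the finitely supported binary sequences, the relations `cg k` (the first
`k` coordinates agree), and the group of the permutations that preserve them. The translations
inside one cone, and the sets of points and the model.
-/

set_option autoImplicit false
set_option linter.unusedSectionVars false

namespace Pool.Agent.Q176.WL

open Pool.Agent.Q211.AM Pool.Agent.Q211.TP Pool.Agent.W868 Pool.Agent.Q211.PA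
open ZFSet (pair)

/-- Finitely supported binary sequences. -/
abbrev Xs := ℕ →₀ ZMod 2

/-- The first `k` coordinates agree. -/
def cg (k : ℕ) (z w : Xs) : Prop := ∀ i < k, z i = w i

theorem cg_refl (k : ℕ) (z : Xs) : cg k z z := fun _ _ => rfl

theorem cg_symm {k : ℕ} {z w : Xs} (h : cg k z w) : cg k w z := fun i hi => (h i hi).symm

theorem cg_trans {k : ℕ} {z w v : Xs} (h : cg k z w) (h' : cg k w v) : cg k z v :=
  fun i hi => (h i hi).trans (h' i hi)

theorem cg_mono {k l : ℕ} (hkl : k ≤ l) {z w : Xs} (h : cg l z w) : cg k z w :=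
  fun i hi => h i (hi.trans_le hkl)

theorem exists_not_cg {z w : Xs} (h : z ≠ w) : ∃ k, ∀ l, k ≤ l → ¬ cg l z w := by
  obtain ⟨i, hi⟩ : ∃ i, z i ≠ w i := by
    by_contra hcon
    push Not at hcon
    exact h (Finsupp.ext hcon)
  exact ⟨i + 1, fun l hl hc => hi (hc i (by omega))⟩

/-- The group. -/
def Gm : Subgroup (Equiv.Perm Xs) where
  carrier := {γ | ∀ k z w, cg k (γ z) (γ w) ↔ cg k z w}
  one_mem' := fun _ _ _ => Iff.rfl
  mul_mem' := by
    intro a b ha hb k z w
    exact (ha k _ _).trans (hb k _ _)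
  inv_mem' := by
    intro a ha k z w
    have h1 : ∀ z, a (a⁻¹ z) = z := fun z => Equiv.apply_symm_apply a z
    have h2 := ha k (a⁻¹ z) (a⁻¹ w)
    rw [h1, h1] at h2
    exact h2.symm

abbrev GG := ↥Gm

theorem sm_def (γ : GG) (z : Xs) : γ • z = γ.1 z := rfl

theorem sm_cg (γ : GG) {k : ℕ} {z w : Xs} : cg k (γ • z) (γ • w) ↔ cg k z w := γ.2 k z w

theorem add_self_zero (t : Xs) : t + t = 0 := by
  ext i
  rw [Finsupp.add_apply, Finsupp.zero_apply]
  exact CharTwo.add_self_eq_zero (t i)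

open Classical in
/-- The translation by `t` inside the cone of `c` of level `K`. -/
noncomputable def mvf (c : Xs) (K : ℕ) (t : Xs) (z : Xs) : Xs :=
  if cg K z c then z + t else z

theorem cg_mvf_self {c : Xs} {K : ℕ} {t : Xs} (ht : ∀ i < K, t i = 0) (z : Xs) :
    cg K (mvf c K t z) z := by
  intro i hi
  unfold mvf
  split_ifs with h1
  · rw [Finsupp.add_apply, ht i hi, add_zero]
  · rfl

theorem mvf_mvf {c : Xs} {K : ℕ} {t : Xs} (ht : ∀ i < K, t i = 0) (z : Xs) :
    mvf c K t (mvf c K t z) = z := by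
  by_cases h : cg K z c
  · have h2 : mvf c K t z = z + t := if_pos h
    have h3 : cg K (mvf c K t z) c := cg_trans (cg_mvf_self ht z) h
    rw [mvf, if_pos h3, h2, add_assoc, add_self_zero, add_zero]
  · have h2 : mvf c K t z = z := if_neg h
    rw [h2, h2]

/-- The translation as a permutation. -/
noncomputable def mvp (c : Xs) (K : ℕ) (t : Xs) (ht : ∀ i < K, t i = 0) : Equiv.Perm Xs where
  toFun := mvf c K t
  invFun := mvf c K t
  left_inv := mvf_mvf ht
  right_inv := mvf_mvf ht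

theorem cg_mvf_mp {c : Xs} {K : ℕ} {t : Xs} (ht : ∀ i < K, t i = 0) {k : ℕ} {z w : Xs}
    (h : cg k z w) : cg k (mvf c K t z) (mvf c K t w) := by
  rcases le_or_gt k K with hk | hk
  · exact cg_trans (cg_mono hk (cg_mvf_self ht z))
      (cg_trans h (cg_symm (cg_mono hk (cg_mvf_self ht w))))
  · have h0 : cg K z w := cg_mono hk.le h
    have h1 : cg K z c ↔ cg K w c := ⟨fun h1 => cg_trans (cg_symm h0) h1, fun h1 => cg_trans h0 h1⟩
    intro i hi
    by_cases h2 : cg K z c
    · rw [mvf, if_pos h2, mvf, if_pos (h1.1 h2), Finsupp.add_apply, Finsupp.add_apply, h i hi]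
    · rw [mvf, if_neg h2, mvf, if_neg fun h3 => h2 (h1.2 h3)]
      exact h i hi

theorem mvp_mem (c : Xs) (K : ℕ) (t : Xs) (ht : ∀ i < K, t i = 0) : mvp c K t ht ∈ Gm := by
  intro k z w
  refine ⟨fun h => ?_, fun h => cg_mvf_mp ht h⟩
  have h1 := cg_mvf_mp (c := c) ht h
  change cg k (mvf c K t (mvf c K t z)) (mvf c K t (mvf c K t w)) at h1
  rwa [mvf_mvf ht, mvf_mvf ht] at h1

/-- The translation as an element of the group. -/
noncomputable def mv (c : Xs) (K : ℕ) (t : Xs) (ht : ∀ i < K, t i = 0) : GG :=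
  ⟨mvp c K t ht, mvp_mem c K t ht⟩

theorem mv_fix {c : Xs} {K : ℕ} {t : Xs} {ht : ∀ i < K, t i = 0} {z : Xs} (h : ¬ cg K z c) :
    mv c K t ht • z = z := if_neg h

theorem mv_pos {c : Xs} {K : ℕ} {t : Xs} {ht : ∀ i < K, t i = 0} {z : Xs} (h : cg K z c) :
    mv c K t ht • z = z + t := if_pos h

/-- A finite set that does not contain `x` is disjoint from the small cones of `x`. -/
theorem exists_late (E : Finset Xs) {x : Xs} (hx : x ∉ E) :
    ∃ K, ∀ l, K ≤ l → ∀ e ∈ E, ¬ cg l e x := by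
  classical
  induction E using Finset.induction_on with
  | empty => exact ⟨0, fun _ _ e he => absurd he (Finset.notMem_empty _)⟩
  | insert a s _ ih =>
    obtain ⟨K, hK⟩ := ih fun h => hx (Finset.mem_insert_of_mem h)
    obtain ⟨k, hk⟩ := exists_not_cg (z := a) (w := x)
      fun h => hx (h ▸ Finset.mem_insert_self _ _)
    refine ⟨max K k, fun l hl e he => ?_⟩
    rcases Finset.mem_insert.1 he with rfl | he
    · exact hk l ((le_max_right _ _).trans hl)
    · exact hK l ((le_max_left _ _).trans hl) e he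

/-! ### The sets -/

/-- Balls. -/
def ball (k : ℕ) (z : Xs) : Set Xs := {w | cg k w z}

theorem ball_eq {k : ℕ} {z w : Xs} (h : cg k z w) : ball k z = ball k w := by
  ext x
  exact ⟨fun hx => cg_trans hx h, fun hx => cg_trans hx (cg_symm h)⟩

theorem finite_ball (n : ℕ) : (Set.range (ball n)).Finite := by
  classical
  let π : Xs → (Fin n → ZMod 2) := fun z i => z i
  have hπ : ∀ z w, π z = π w → ball n z = ball n w := by
    intro z w h
    exact ball_eq fun i hi => congrFun h ⟨i, hi⟩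
  let g : (Fin n → ZMod 2) → Set Xs := fun v =>
    if h : ∃ z, π z = v then ball n h.choose else ∅
  refine (Set.finite_range g).subset ?_
  rintro _ ⟨z, rfl⟩
  refine ⟨π z, ?_⟩
  have h : ∃ w, π w = π z := ⟨z, rfl⟩
  change (if h : ∃ w, π w = π z then ball n h.choose else ∅) = ball n z
  rw [dif_pos h]
  exact hπ _ _ h.choose_spec

theorem im'_ball (γ : GG) (k : ℕ) (z : Xs) : im' γ (ball k z) = ball k (γ • z) := by
  ext x
  rw [mem_im']
  change cg k (γ⁻¹ • x) z ↔ cg k x (γ • z)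
  rw [← sm_cg γ, smul_inv_smul]

/-- The sets of points. -/
def DD : Set (Set Xs) := {Set.univ} ∪ Set.range (fun p : ℕ × Xs => ball p.1 p.2)

theorem univ_mem : (Set.univ : Set Xs) ∈ DD := Or.inl rfl

theorem ball_mem (k : ℕ) (z : Xs) : ball k z ∈ DD := Or.inr ⟨(k, z), rfl⟩

theorem DD_cases {P : Set Xs → Prop} (h0 : P Set.univ) (h1 : ∀ k z, P (ball k z)) :
    ∀ D ∈ DD, P D := by
  rintro D (rfl | ⟨p, rfl⟩)
  · exact h0
  · exact h1 _ _

theorem DD_cnt : DD.Countable := (Set.countable_singleton _).union (Set.countable_range _)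

theorem im'_univ (γ : GG) : im' γ (Set.univ : Set Xs) = Set.univ := by
  ext x
  rw [mem_im']
  exact Iff.rfl

theorem DD_inv (γ : GG) : ∀ D ∈ DD, im' γ D ∈ DD := by
  refine DD_cases ?_ (fun k z => ?_)
  · rw [im'_univ]
    exact univ_mem
  · rw [im'_ball]
    exact ball_mem _ _

theorem stab_mem (x : Xs) : fixingSubgroup GG ({x} : Set Xs) ∈ (NFin Xs GG).F := by
  refine ⟨{x}, fun k => ?_⟩
  rw [mem_fixingSubgroup_iff]
  simp

theorem stab_fix {x : Xs} {g : GG} (h : g ∈ fixingSubgroup GG ({x} : Set Xs)) : g • x = x := by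
  rw [mem_fixingSubgroup_iff] at h
  exact h x rfl

theorem DD_sym : ∀ D ∈ DD, ∃ H ∈ (NFin Xs GG).F, ∀ g ∈ H, im' g D = D := by
  refine DD_cases ?_ (fun k z => ?_)
  · exact ⟨_, stab_mem 0, fun g _ => im'_univ g⟩
  · exact ⟨_, stab_mem z, fun g hg => by rw [im'_ball, stab_fix hg]⟩

/-- The families: none. -/
def FF : Set (Set (Set Xs)) := ∅

theorem FF_cnt : FF.Countable := Set.countable_empty

theorem FF_sub : ∀ φ ∈ FF, φ ⊆ DD := fun _ h => absurd h (Set.notMem_empty _)

theorem FF_inv (γ : GG) : ∀ φ ∈ FF, imF γ φ ∈ FF := fun _ h => absurd h (Set.notMem_empty _)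

theorem FF_sym : ∀ φ ∈ FF, ∃ H ∈ (NFin Xs GG).F, ∀ g ∈ H, imF g φ = φ :=
  fun _ h => absurd h (Set.notMem_empty _)

/-- The relation: the balls of a given order. -/
def Rl (_k j : ℕ) (D : Set Xs) : Prop := ∃ z, D = ball j z

theorem Rl_imp {k j : ℕ} (γ : GG) {D : Set Xs} (h : Rl k j D) : Rl k j (im' γ D) := by
  obtain ⟨z, rfl⟩ := h
  exact ⟨γ • z, im'_ball _ _ _⟩

theorem Rl_inv (k j : ℕ) (γ : GG) (D : Set Xs) (_ : D ∈ DD) : Rl k j (im' γ D) ↔ Rl k j D := by
  refine ⟨fun h => ?_, Rl_imp γ⟩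
  have h1 := Rl_imp γ⁻¹ h
  rwa [im'_inv] at h1

/-- The properties of the model. -/
abbrev MB (M : Set ZFSet.{0}) (at' : Xs → ZFSet.{0}) (st : Set Xs → ZFSet.{0})
    (fam : Set (Set Xs) → ZFSet.{0}) : Prop := PM3 (NFin Xs GG) DD FF nat Rl M at' st fam

theorem exists_mb : ∃ M at' st fam, MB M at' st fam :=
  exists_pm3 pt_NFin DD DD_cnt DD_inv DD_sym FF FF_cnt FF_sub FF_inv FF_sym nat .nat Rl Rl_inv

end Pool.Agent.Q176.WL
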