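import Pool.Agent.Q176.WL.W1
import Pool.Agent.Q211.FS.Met

/-!
# The space in the model
-/

set_option autoImplicit false
set_option linter.unusedSectionVars false
set_option linter.unreachableTactic false
set_option linter.unusedTactic false

namespace Pool.Agent.Q176.WL

open Pool.Agent.Q211.AM Pool.Agent.Q211.TP Pool.Agent.W868 Pool.Agent.Q211.PA
open Pool.Agent.Q211.SY Pool.Agent.Q211.FS
open ZFSet (pair)

/-- In `M`, the space `(X, τ)` is a Hausdorff space. -/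
def HausdorffIn (X τ : ZFSet.{0}) : Prop :=
  ∀ x ∈ X, ∀ y ∈ X, x ≠ y → ∃ U ∈ τ, ∃ V ∈ τ, x ∈ U ∧ y ∈ V ∧ ∀ z ∈ U, z ∉ V

/-- In `M`, the space `(X, τ)` has a cuf base: a base that is the union of a sequence (an element
of `M`) of finite sets. -/
def CufBaseIn (M : Set ZFSet.{0}) (τ : ZFSet.{0}) : Prop :=
  ∃ s ∈ M, ∃ V : ℕ → ZFSet.{0}, IsSeqF s V ∧ (∀ n, FinIn M (V n)) ∧ (∀ n, ∀ D ∈ V n, D ∈ τ) ∧
    ∀ U ∈ τ, ∀ x ∈ U, ∃ n, ∃ D ∈ V n, x ∈ D ∧ D ⊆ U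

/-- In `M`, the space `(X, τ)` is weakly Loeb: there is a multiple choice function for the
nonempty closed subsets. -/
def WeaklyLoebIn (M : Set ZFSet.{0}) (X τ : ZFSet.{0}) : Prop :=
  ∃ f ∈ M, ∀ K ∈ M, K ⊆ X → X \ K ∈ τ → (∃ x, x ∈ K) →
    ∃ F, F ⊆ K ∧ (∃ x, x ∈ F) ∧ FinIn M F ∧ ∀ z, pair K z ∈ f ↔ z = F

/-- The relation. -/
structure RB (M : Set ZFSet.{0}) (at' : Xs → ZFSet.{0}) (st : Set Xs → ZFSet.{0})
    (fam : Set (Set Xs) → ZFSet.{0}) (B0 : ZFSet.{0}) : Prop where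
  h : MB M at' st fam
  hB0 : B0 ∈ M
  m0 : ∀ z, z ∈ B0 ↔ ∃ n : ℕ, ∃ D ∈ DD, Rl 0 n D ∧ z = pair (nat n) (st D)

theorem exists_rb : ∃ M at' st fam B0, RB M at' st fam B0 := by
  obtain ⟨M, at', st, fam, h⟩ := exists_mb
  obtain ⟨B0, h0, m0⟩ := h.rl 0
  exact ⟨M, at', st, fam, B0, h, h0, m0⟩

/-- The topology. -/
noncomputable def tau (M : Set ZFSet.{0}) (X B0 : ZFSet.{0}) : ZFSet.{0} :=
  ZFSet.sep (fun U => ∀ x ∈ U, ∃ p ∈ M, ∃ D ∈ M, pair p D ∈ B0 ∧ x ∈ D ∧ D ⊆ U) (PM M X)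

namespace RB

variable {M : Set ZFSet.{0}} {at' : Xs → ZFSet.{0}} {st : Set Xs → ZFSet.{0}}
  {fam : Set (Set Xs) → ZFSet.{0}} {B0 : ZFSet.{0}} (r : RB M at' st fam B0)

include r

theorem XM : st Set.univ ∈ M := r.h.stM _ univ_mem

theorem at_mem (x : Xs) : at' x ∈ st Set.univ := (r.h.mem_st univ_mem).2 trivial

theorem of_mem {z : ZFSet.{0}} (h : z ∈ st Set.univ) : ∃ x, z = at' x := r.h.atoms univ_mem z h

theorem mb0 {p : ZFSet.{0}} {D : ZFSet.{0}} : pair p D ∈ B0 ↔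
    ∃ k : ℕ, ∃ z, p = nat k ∧ D = st (ball k z) := by
  rw [r.m0]
  constructor
  · rintro ⟨n, D', -, ⟨z, rfl⟩, h2⟩
    obtain ⟨h3, rfl⟩ := ZFSet.pair_inj.1 h2
    exact ⟨n, z, h3, rfl⟩
  · rintro ⟨k, z, rfl, rfl⟩
    exact ⟨k, ball k z, ball_mem _ _, ⟨z, rfl⟩, rfl⟩

theorem mb0' {k : ℕ} {D : ZFSet.{0}} : pair (nat k) D ∈ B0 ↔ ∃ z, D = st (ball k z) := by
  rw [r.mb0]
  constructor
  · rintro ⟨n, z, h, rfl⟩
    rw [nat_injective h]
    exact ⟨z, rfl⟩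
  · rintro ⟨z, rfl⟩
    exact ⟨k, z, rfl, rfl⟩

theorem mem_tau {U : ZFSet.{0}} : U ∈ tau M (st Set.univ) B0 ↔ U ∈ M ∧ U ⊆ st Set.univ ∧
    ∀ x, at' x ∈ U → ∃ l, ∀ w ∈ ball l x, at' w ∈ U := by
  rw [tau, ZFSet.mem_sep, mem_PM, and_assoc]
  refine and_congr_right fun hU => and_congr_right fun hUX => ?_
  constructor
  · intro h x hx
    obtain ⟨p, -, D, -, hD, hxD, hDU⟩ := h _ hx
    obtain ⟨l, z, rfl, rfl⟩ := r.mb0.1 hD
    rw [r.h.mem_st (ball_mem _ _)] at hxD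
    refine ⟨l, fun w hw => hDU ((r.h.mem_st (ball_mem _ _)).2 ?_)⟩
    exact cg_trans hw hxD
  · intro h x hx
    obtain ⟨x, rfl⟩ := r.of_mem (hUX hx)
    obtain ⟨l, hl⟩ := h x hx
    have h1 : pair (nat l) (st (ball l x)) ∈ B0 := r.mb0'.2 ⟨x, rfl⟩
    refine ⟨nat l, r.h.zf.nat_mem l,
      st (ball l x), r.h.stM _ (ball_mem _ _), h1, (r.h.mem_st (ball_mem _ _)).2 (cg_refl _ _),
      fun z hz => ?_⟩
    obtain ⟨w, rfl⟩ := r.h.atoms (ball_mem _ _) z hz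
    exact hl w ((r.h.mem_st (ball_mem _ _)).1 hz)

theorem tau_mem : tau M (st Set.univ) B0 ∈ M := by
  have hM := r.h.zf
  have hB := hM.base
  have hX := r.XM
  have h1 := r.hB0
  refine hM.sep_mem (Q := fun U => ∀ x ∈ U, ∃ p ∈ M, ∃ D ∈ M,
    pair p D ∈ B0 ∧ x ∈ D ∧ D ⊆ U) ?_ (PM_mem hM hX)
  (repeat' first
    | assumption
    | exact DfnF.proj _
    | exact DfnF.const (by assumption)
    | exact DfnF.const' (by first | assumption | trivial) (by first | assumption | trivial)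
    | exact Dfn.prop _
    | apply hB.isFunc' | apply hB.isInj' | apply hB.isBij' | apply hB.isOrdinal'
    | apply hB.subset' | apply hB.pair' | apply hB.insert'
    | apply Dfn.not | apply Dfn.and | apply Dfn.or | apply Dfn.imp | apply Dfn.iff
    | apply hB.bex | apply hB.ball | apply Dfn.ex | apply Dfn.all
    | apply Dfn.eq | apply Dfn.mem)

/-- Open sets of points are open. -/
theorem st_open {D : Set Xs} (hD : D ∈ DD) (h : ∀ z ∈ D, ∃ K, ball K z ⊆ D) :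
    st D ∈ tau M (st Set.univ) B0 := by
  refine r.mem_tau.2 ⟨r.h.stM D hD, fun z hz => ?_, fun x hx => ?_⟩
  · obtain ⟨x, rfl⟩ := r.h.atoms hD z hz
    exact r.at_mem x
  · obtain ⟨K, hK⟩ := h x ((r.h.mem_st hD).1 hx)
    exact ⟨K, fun w hw => (r.h.mem_st hD).2 (hK hw)⟩

theorem ball_open (n : ℕ) (z : Xs) : st (ball n z) ∈ tau M (st Set.univ) B0 :=
  r.st_open (ball_mem _ _) fun _ hw => ⟨n, fun _ hv => cg_trans hv hw⟩

theorem top : IsTopIn M (st Set.univ) (tau M (st Set.univ) B0) := by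
  have hM := r.h.zf
  refine ⟨fun U hU => (r.mem_tau.1 hU).2.1, r.st_open univ_mem fun z _ => ⟨0, fun _ _ => trivial⟩,
    fun U hU V hV => ?_, fun C hC hCτ => ?_⟩
  · obtain ⟨h1, h2, h3⟩ := r.mem_tau.1 hU
    obtain ⟨h4, h5, h6⟩ := r.mem_tau.1 hV
    have h7 : U ∩ V = ZFSet.sep (fun z => z ∈ V) U := by
      ext z
      rw [ZFSet.mem_inter, ZFSet.mem_sep]
    refine r.mem_tau.2 ⟨?_, fun z hz => h2 (ZFSet.mem_inter.1 hz).1, fun x hx => ?_⟩
    · rw [h7]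
      exact hM.sep_mem (Q := fun z => z ∈ V) (Dfn.mem (DfnF.proj 0) (DfnF.const h4)) h1
    · obtain ⟨hx1, hx2⟩ := ZFSet.mem_inter.1 hx
      obtain ⟨l, hl⟩ := h3 x hx1
      obtain ⟨l', hl'⟩ := h6 x hx2
      exact ⟨max l l', fun w hw => ZFSet.mem_inter.2 ⟨hl w (cg_mono (le_max_left _ _) hw),
        hl' w (cg_mono (le_max_right _ _) hw)⟩⟩
  · refine r.mem_tau.2 ⟨hM.union _ hC, fun z hz => ?_, fun x hx => ?_⟩
    · obtain ⟨U, hU, hz⟩ := ZFSet.mem_sUnion.1 hz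
      exact (r.mem_tau.1 (hCτ hU)).2.1 hz
    · obtain ⟨U, hU, hx⟩ := ZFSet.mem_sUnion.1 hx
      obtain ⟨l, hl⟩ := (r.mem_tau.1 (hCτ hU)).2.2 x hx
      exact ⟨l, fun w hw => ZFSet.mem_sUnion.2 ⟨U, hU, hl w hw⟩⟩

/-- Complements. -/
theorem compl_mem {U : ZFSet.{0}} (hU : U ∈ M) : st Set.univ \ U ∈ M := by
  have hM := r.h.zf
  have h7 : st Set.univ \ U = ZFSet.sep (fun z => z ∉ U) (st Set.univ) := by
    ext z
    rw [ZFSet.mem_sdiff, ZFSet.mem_sep]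
  rw [h7]
  exact hM.sep_mem (Q := fun z => z ∉ U) (Dfn.not (Dfn.mem (DfnF.proj 0) (DfnF.const hU))) r.XM

/-! ### The Hausdorff property -/

theorem hausdorff : HausdorffIn (st Set.univ) (tau M (st Set.univ) B0) := by
  intro x hx y hy hne
  obtain ⟨x, rfl⟩ := r.of_mem hx
  obtain ⟨y, rfl⟩ := r.of_mem hy
  have hne' : x ≠ y := fun h => hne (by rw [h])
  obtain ⟨k, hk⟩ := exists_not_cg hne'
  refine ⟨_, r.ball_open k x, _, r.ball_open k y, (r.h.mem_st (ball_mem _ _)).2 (cg_refl _ _),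
    (r.h.mem_st (ball_mem _ _)).2 (cg_refl _ _), fun z hz hz' => ?_⟩
  obtain ⟨w, rfl⟩ := r.h.atoms (ball_mem _ _) z hz
  rw [r.h.mem_st (ball_mem _ _)] at hz hz'
  exact hk k le_rfl (cg_trans (cg_symm hz) hz')

/-! ### The cuf base -/

theorem cufBase : CufBaseIn M (tau M (st Set.univ) B0) := by
  have hM := r.h.zf
  have hB := hM.base
  have hX := r.XM
  have h0 := r.hB0
  have hom : ZFSet.omega ∈ M := hM.infinity
  have hP := PM_mem hM hX
  have hPP := PM_mem hM hP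
  let V : ℕ → ZFSet.{0} := fun n =>
    ZFSet.sep (fun D => pair (nat n) D ∈ B0) (PM M (st Set.univ))
  have hV : ∀ n D, D ∈ V n ↔ ∃ z, D = st (ball n z) := by
    intro n D
    rw [ZFSet.mem_sep, r.mb0', mem_PM]
    refine ⟨fun h => h.2, fun h => ⟨?_, h⟩⟩
    obtain ⟨z, rfl⟩ := h
    refine ⟨r.h.stM _ (ball_mem _ _), fun y hy => ?_⟩
    obtain ⟨w, rfl⟩ := r.h.atoms (ball_mem _ _) y hy
    exact r.at_mem w
  have hVM : ∀ n, V n ∈ M := by
    intro n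
    have hn : nat n ∈ M := hM.nat_mem n
    refine hM.sep_mem (Q := fun D => pair (nat n) D ∈ B0) ?_ hP
    (repeat' first
      | assumption
      | exact DfnF.proj _
      | exact DfnF.const (by assumption)
      | exact Dfn.prop _
      | apply hB.subset' | apply hB.pair' | apply hB.insert'
      | apply Dfn.not | apply Dfn.and | apply Dfn.or | apply Dfn.imp | apply Dfn.iff
      | apply hB.bex | apply hB.ball | apply Dfn.ex | apply Dfn.all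
      | apply Dfn.eq | apply Dfn.mem)
  obtain ⟨s, hs, hs1, hs2⟩ := hM.rel_mem (x := ZFSet.omega) (y := PM M (PM M (st Set.univ)))
    hom hPP (Q := fun n W => ∀ D ∈ PM M (st Set.univ), (D ∈ W ↔ pair n D ∈ B0)) (by
      (repeat' first
        | assumption
        | exact DfnF.proj _
        | exact DfnF.const (by assumption)
        | exact Dfn.prop _
        | apply hB.subset' | apply hB.pair' | apply hB.insert'
        | apply Dfn.not | apply Dfn.and | apply Dfn.or | apply Dfn.imp | apply Dfn.iff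
        | apply hB.bex | apply hB.ball | apply Dfn.ex | apply Dfn.all
        | apply Dfn.eq | apply Dfn.mem))
  refine ⟨s, hs, V, fun z => ?_, fun n => ?_, fun n D hD => ?_, fun U hU x hx => ?_⟩
  · constructor
    · intro hz
      obtain ⟨m, hm, W, hW, rfl⟩ := ZFSet.mem_prod.1 (hs1 hz)
      obtain ⟨n, rfl⟩ := mem_omega_iff.1 hm
      obtain ⟨-, -, h3⟩ := (hs2 _ _).1 hz
      refine ⟨n, ?_⟩
      congr 1
      ext D
      constructor
      · intro hD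
        have h4 := (mem_PM.1 hW).2 hD
        exact ZFSet.mem_sep.2 ⟨h4, (h3 D h4).1 hD⟩
      · intro hD
        obtain ⟨h4, h5⟩ := ZFSet.mem_sep.1 hD
        exact (h3 D h4).2 h5
    · rintro ⟨n, rfl⟩
      refine (hs2 _ _).2 ⟨mem_omega_iff.2 ⟨n, rfl⟩, mem_PM.2 ⟨hVM n, fun D hD =>
        (ZFSet.mem_sep.1 hD).1⟩, fun D hD => ?_⟩
      rw [ZFSet.mem_sep]
      exact ⟨fun h => h.2, fun h => ⟨hD, h⟩⟩
  · unfold FinIn
    rw [← finite_iff hM (hVM n)]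
    refine ((finite_ball n).image st).subset ?_
    intro D hD
    obtain ⟨z, rfl⟩ := (hV n D).1 hD
    exact ⟨_, ⟨z, rfl⟩, rfl⟩
  · obtain ⟨z, rfl⟩ := (hV n D).1 hD
    exact r.ball_open n z
  · obtain ⟨h1, h2, h3⟩ := r.mem_tau.1 hU
    obtain ⟨x, rfl⟩ := r.of_mem (h2 hx)
    obtain ⟨l, hl⟩ := h3 x hx
    refine ⟨l, st (ball l x), (hV _ _).2 ⟨x, rfl⟩, (r.h.mem_st (ball_mem _ _)).2 (cg_refl _ _),
      fun z hz => ?_⟩
    obtain ⟨w, rfl⟩ := r.h.atoms (ball_mem _ _) z hz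
    exact hl w ((r.h.mem_st (ball_mem _ _)).1 hz)

end RB

end Pool.Agent.Q176.WL
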