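import Pool.Agent.Q176.WL.W2

/-!
# Compactness and the failure of the weak Loeb property
-/

set_option autoImplicit false
set_option linter.unusedSectionVars false
set_option linter.unreachableTactic false
set_option linter.unusedTactic false

namespace Pool.Agent.Q176.WL

open Pool.Agent.Q211.AM Pool.Agent.Q211.TP Pool.Agent.W868 Pool.Agent.Q211.PA
open Pool.Agent.Q211.SY Pool.Agent.Q211.FS
open ZFSet (pair)

theorem ud_good : UD fun _ (v : Fin 3 → ZFSet.{0}) => ∃ U ∈ v 0, v 2 ⊆ U := by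
  (repeat' first
    | assumption
    | exact UF.proj _
    | exact UF.om
    | exact UD.prop _
    | apply UD.not | apply UD.and | apply UD.or | apply UD.imp | apply UD.iff
    | apply UD.bex | apply UD.ball | apply UD.ex | apply UD.all
    | apply UD.subset
    | apply UD.eq | apply UD.mem | apply UF.pair)

theorem ud_val : UD fun M (v : Fin 4 → ZFSet.{0}) => ∃ F ∈ M, pair (v 2) F ∈ v 0 ∧ v 3 ∈ F := by
  (repeat' first
    | assumption
    | exact UF.proj _
    | exact UF.om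
    | exact UD.prop _
    | apply UD.not | apply UD.and | apply UD.or | apply UD.imp | apply UD.iff
    | apply UD.bex | apply UD.ball | apply UD.ex | apply UD.all
    | apply UD.subset
    | apply UD.eq | apply UD.mem | apply UF.pair)

namespace RB

variable {M : Set ZFSet.{0}} {at' : Xs → ZFSet.{0}} {st : Set Xs → ZFSet.{0}}
  {fam : Set (Set Xs) → ZFSet.{0}} {B0 : ZFSet.{0}} (r : RB M at' st fam B0)

include r

open Classical in
/-- Symmetry for one object. -/
theorem supp1 {f : ZFSet.{0}} (hf : f ∈ M) : ∃ E : Finset Xs, ∀ γ : GG,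
    (∀ x ∈ E, γ • x = x) → ∀ Q : Set ZFSet.{0} → (Fin 3 → ZFSet.{0}) → Prop, UD Q →
      ∀ o : Ob Xs, okO DD FF o → Q M ![f, nat 0, vO at' st fam o] →
        Q M ![f, nat 0, vO at' st fam (acO γ o)] := by
  obtain ⟨H, ⟨E, hE⟩, e, h1⟩ := r.h.inv1 hf
  exact ⟨E ∪ e, fun γ hγ Q hQ o ho hq => h1 γ ((hE γ).2 fun x hx =>
    hγ x (Finset.mem_union_left _ hx)) (fun x hx => hγ x (Finset.mem_union_right _ hx)) _
    (.nat 0) Q hQ o ho hq⟩

open Classical in
/-- Symmetry for two objects. -/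
theorem supp2 {f : ZFSet.{0}} (hf : f ∈ M) : ∃ E : Finset Xs, ∀ γ : GG,
    (∀ x ∈ E, γ • x = x) → ∀ Q : Set ZFSet.{0} → (Fin 4 → ZFSet.{0}) → Prop, UD Q →
      ∀ o o' : Ob Xs, okO DD FF o → okO DD FF o' →
        Q M ![f, nat 0, vO at' st fam o, vO at' st fam o'] →
        Q M ![f, nat 0, vO at' st fam (acO γ o), vO at' st fam (acO γ o')] := by
  obtain ⟨H, ⟨E, hE⟩, e, h1⟩ := r.h.inv2 hf
  exact ⟨E ∪ e, fun γ hγ Q hQ o o' ho ho' hq => h1 γ ((hE γ).2 fun x hx =>
    hγ x (Finset.mem_union_left _ hx)) (fun x hx => hγ x (Finset.mem_union_right _ hx)) _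
    (.nat 0) Q hQ o o' ho ho' hq⟩

/-! ### Compactness -/

/-- A cover in `M` by open sets contains, for some `k`, supersets of all balls of order `k`. -/
theorem lebesgue {C : ZFSet.{0}} (hC : C ∈ M) (hCτ : C ⊆ tau M (st Set.univ) B0)
    (hcov : ∀ x ∈ st Set.univ, ∃ U ∈ C, x ∈ U) : ∃ k, ∀ z, ∃ U ∈ C, st (ball k z) ⊆ U := by
  classical
  obtain ⟨E, hE⟩ := r.supp1 hC
  -- a good ball around each point
  have h1 : ∀ z : Xs, ∃ l, ∃ U ∈ C, st (ball l z) ⊆ U := by
    intro z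
    obtain ⟨U, hU, hz⟩ := hcov _ (r.at_mem z)
    obtain ⟨l, hl⟩ := (r.mem_tau.1 (hCτ hU)).2.2 z hz
    refine ⟨l, U, hU, fun y hy => ?_⟩
    obtain ⟨w, rfl⟩ := r.h.atoms (ball_mem _ _) y hy
    exact hl w ((r.h.mem_st (ball_mem _ _)).1 hy)
  have hmono : ∀ {k l : ℕ} {z : Xs}, k ≤ l → st (ball l z) ⊆ st (ball k z) := by
    intro k l z hkl y hy
    obtain ⟨w, rfl⟩ := r.h.atoms (ball_mem _ _) y hy
    exact (r.h.mem_st (ball_mem _ _)).2 (cg_mono hkl ((r.h.mem_st (ball_mem _ _)).1 hy))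
  choose lv hlv using h1
  let L := E.sup lv
  -- classes of order `L`
  have h2 : ∀ z : Xs, ∃ l, L ≤ l ∧ ∀ w, cg L w z → ∃ U ∈ C, st (ball l w) ⊆ U := by
    intro z
    by_cases hz : ∃ e ∈ E, cg L e z
    · obtain ⟨e, he, h3⟩ := hz
      obtain ⟨U, hU, h4⟩ := hlv e
      refine ⟨L, le_rfl, fun w hw => ⟨U, hU, fun y hy => h4 ?_⟩⟩
      have h5 : ball L w = ball L e := ball_eq (cg_trans hw (cg_symm h3))
      rw [h5] at hy
      exact hmono (Finset.le_sup (f := lv) he) hy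
    · push Not at hz
      refine ⟨max L (lv z), le_max_left _ _, fun w hw => ?_⟩
      have ht : ∀ i < L, (z + w) i = 0 := by
        intro i hi
        rw [Finsupp.add_apply, hw i hi]
        exact CharTwo.add_self_eq_zero (z i)
      have h3 : ∀ x ∈ E, mv z L (z + w) ht • x = x := fun x hx => mv_fix (hz x hx)
      obtain ⟨U, hU, h4⟩ := hE _ h3 _ ud_good (.inr (.inl (ball (lv z) z))) (ball_mem _ _)
        (hlv z)
      change st (im' (mv z L (z + w) ht) (ball (lv z) z)) ⊆ U at h4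
      rw [im'_ball, mv_pos (cg_refl _ _), ← add_assoc, add_self_zero, zero_add] at h4
      exact ⟨U, hU, fun y hy => h4 (hmono (le_max_right _ _) hy)⟩
  choose lz hlz hlz' using h2
  -- finitely many classes
  have hfin := finite_ball L
  have h3 : ∀ B ∈ hfin.toFinset, ∃ z, B = ball L z := by
    intro B hB
    obtain ⟨z, rfl⟩ := (hfin.mem_toFinset).1 hB
    exact ⟨z, rfl⟩
  choose! zz hzz using h3
  refine ⟨hfin.toFinset.sup fun B => lz (zz B), fun w => ?_⟩
  have h4 : ball L w ∈ hfin.toFinset := hfin.mem_toFinset.2 ⟨w, rfl⟩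
  have h5 : cg L w (zz (ball L w)) := by
    have h6 : w ∈ ball L w := cg_refl _ _
    rw [hzz _ h4] at h6
    exact h6
  obtain ⟨U, hU, h6⟩ := hlz' _ w h5
  exact ⟨U, hU, fun y hy => h6 (hmono (Finset.le_sup (f := fun B => lz (zz B)) h4) hy)⟩

theorem compact : CompactIn M (st Set.univ) (tau M (st Set.univ) B0) := by
  classical
  intro C hC hCτ hcov
  obtain ⟨k, hk⟩ := r.lebesgue hC hCτ hcov
  choose U hU hU' using hk
  have hfin := finite_ball k
  have h3 : ∀ B ∈ hfin.toFinset, ∃ z, B = ball k z := by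
    intro B hB
    obtain ⟨z, rfl⟩ := (hfin.mem_toFinset).1 hB
    exact ⟨z, rfl⟩
  choose! zz hzz using h3
  refine ⟨hfin.toFinset.image fun B => U (zz B), fun V hV => ?_, fun x hx => ?_⟩
  · obtain ⟨B, -, rfl⟩ := Finset.mem_image.1 hV
    exact hU _
  · obtain ⟨w, rfl⟩ := r.of_mem hx
    have h4 : ball k w ∈ hfin.toFinset := hfin.mem_toFinset.2 ⟨w, rfl⟩
    refine ⟨_, Finset.mem_image_of_mem _ h4, hU' _ ?_⟩
    rw [← hzz _ h4]
    exact (r.h.mem_st (ball_mem _ _)).2 (cg_refl _ _)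

/-! ### The failure of the weak Loeb property -/

theorem notWeaklyLoeb : ¬ WeaklyLoebIn M (st Set.univ) (tau M (st Set.univ) B0) := by
  classical
  rintro ⟨f, hf, h⟩
  obtain ⟨E, hE⟩ := r.supp2 hf
  obtain ⟨c, hc⟩ := Infinite.exists_notMem_finset E
  obtain ⟨L, hL⟩ := exists_late E hc
  have hop : st Set.univ \ st (ball L c) ∈ tau M (st Set.univ) B0 := by
    refine r.mem_tau.2 ⟨r.compl_mem (r.h.stM _ (ball_mem _ _)), fun z hz =>
      (ZFSet.mem_sdiff.1 hz).1, fun x hx => ?_⟩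
    have h1 : ¬ cg L x c := fun h1 => (ZFSet.mem_sdiff.1 hx).2
      ((r.h.mem_st (ball_mem _ _)).2 h1)
    exact ⟨L, fun w hw => ZFSet.mem_sdiff.2 ⟨r.at_mem w, fun h2 =>
      h1 (cg_trans (cg_symm hw) ((r.h.mem_st (ball_mem _ _)).1 h2))⟩⟩
  obtain ⟨F, hFK, ⟨y, hy⟩, hfin, hF⟩ := h (st (ball L c)) (r.h.stM _ (ball_mem _ _))
    (fun z hz => by
      obtain ⟨w, rfl⟩ := r.h.atoms (ball_mem _ _) z hz
      exact r.at_mem w) hop ⟨at' c, (r.h.mem_st (ball_mem _ _)).2 (cg_refl _ _)⟩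
  have hFM : F ∈ M := (r.h.zf.of_pair_mem (r.h.zf.trans _ hf _ ((hF F).2 rfl))).2
  obtain ⟨w, rfl⟩ := r.h.atoms (ball_mem _ _) y (hFK hy)
  have hw : cg L w c := (r.h.mem_st (ball_mem _ _)).1 (hFK hy)
  have hfin' : {x | at' x ∈ F}.Finite := (r.h.fin_iff (fun z hz => by
    obtain ⟨x, rfl⟩ := r.h.atoms (ball_mem _ _) z (hFK hz)
    exact ⟨x, rfl⟩) hFM).1 hfin
  have hall : ∀ n : ℕ, w + Finsupp.single (L + n) 1 ∈ {x | at' x ∈ F} := by
    intro n
    have ht : ∀ i < L, (Finsupp.single (L + n) (1 : ZMod 2)) i = 0 := by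
      intro i hi
      exact Finsupp.single_eq_of_ne (by omega)
    have h3 : ∀ x ∈ E, mv c L (Finsupp.single (L + n) 1) ht • x = x :=
      fun x hx => mv_fix (hL L le_rfl x hx)
    obtain ⟨F', -, h4, h5⟩ := hE _ h3 _ ud_val (.inr (.inl (ball L c))) (.inl w) (ball_mem _ _)
      trivial ⟨F, hFM, (hF F).2 rfl, hy⟩
    change pair (st (im' (mv c L (Finsupp.single (L + n) 1) ht) (ball L c))) F' ∈ f at h4
    change at' (mv c L (Finsupp.single (L + n) 1) ht • w) ∈ F' at h5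
    rw [mv_pos hw] at h5
    have h6 : ball L (mv c L (Finsupp.single (L + n) 1) ht • c) = ball L c := by
      refine ball_eq ?_
      rw [mv_pos (cg_refl _ _)]
      intro i hi
      rw [Finsupp.add_apply, ht i hi, add_zero]
    rw [im'_ball, h6, hF] at h4
    rw [h4] at h5
    exact h5
  refine Set.infinite_of_injective_forall_mem (f := fun n : ℕ => w + Finsupp.single (L + n) 1)
    (fun a b hab => ?_) hall hfin'
  have h1 : Finsupp.single (L + a) (1 : ZMod 2) = Finsupp.single (L + b) 1 :=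
    add_left_cancel hab
  have h2 := DFunLike.congr_fun h1 (L + a)
  rw [Finsupp.single_eq_same] at h2
  by_contra hne
  rw [Finsupp.single_eq_of_ne (by omega)] at h2
  exact absurd h2 (by decide)

end RB

theorem main : ∃ M : Set ZFSet.{0}, M.Countable ∧ IsZF M ∧ ∃ X ∈ M, ∃ τ ∈ M, IsTopIn M X τ ∧
    CompactIn M X τ ∧ HausdorffIn X τ ∧ CufBaseIn M τ ∧ ¬ WeaklyLoebIn M X τ := by
  obtain ⟨M, at', st, fam, B0, r⟩ := exists_rb
  exact ⟨M, r.h.cnt, r.h.zf, _, r.XM, _, r.tau_mem, r.top, r.compact, r.hausdorff,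
    r.cufBase, r.notWeaklyLoeb⟩

end Pool.Agent.Q176.WL
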